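import Pool.Agent.Y34.HB.Stm3
import Pool.Agent.Y34.HB.Basic
import Pool.Agent.Y73.HB.Par
import Pool.Agent.Y899.HB.Comp
import Pool.Agent.Y155.HB.Slab
import Pool.Agent.Y929.HB.Thick
import Pool.Agent.Y165.HB.End

/-! HQ-DEEP (job 5547, helper779 for helper34): an element which is coarsely a nontrivial
translation of a flat plane on a cone gives `ℤ²`. -/

set_option autoImplicit false

universe u v

open Metric Set Filter Topology
open Pool.Agent.TH60.FP
open Pool.Agent.Y34.HB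

namespace Pool.Agent.Y779.HB

/-- a linear map at bounded distance from the identity is the identity -/
lemma lin_eq {k : ℕ} (A : E k ≃ₗᵢ[ℝ] E k) (C : ℝ) (h : ∀ z, ‖A z - z‖ ≤ C) (z : E k) :
    A z = z := by
  by_contra hne
  have hpos : 0 < ‖A z - z‖ := norm_pos_iff.2 (sub_ne_zero.2 hne)
  obtain ⟨n, hn⟩ := exists_nat_gt (C / ‖A z - z‖)
  rw [div_lt_iff₀ hpos] at hn
  have h1 := h ((n : ℝ) • z)
  rw [map_smul, ← smul_sub, norm_smul, Real.norm_of_nonneg (Nat.cast_nonneg n)] at h1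
  linarith

/-- DEEP -/
theorem t : S_DEEP.{u, v} := by
  intro X _ G _ _ hG h3 f hf u δ _hu hδ g v₀ τ B hB hg
  have := hG.proper
  have := hG.isom
  have := hG.disc
  obtain ⟨K, hK, hKc⟩ := hG.cc
  have hconv := t_conv.{u}
  have hconst := t_const.{u}
  have hpar := Pool.Agent.Y73.HB.t hconv hconst
  have hhom := Pool.Agent.Y899.HB.t3.{u, v} hpar Pool.Agent.Y899.HB.t1 Pool.Agent.Y899.HB.t2
  obtain ⟨M0, hM0⟩ := Pool.Agent.Y929.HB.Thick.t.{u, v}
    (Pool.Agent.Y155.HB.t2 Pool.Agent.Y155.HB.t1) t_lim X G hG 2 h3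
  have hB0 : 0 ≤ B := dist_nonneg.trans (hg 0 ⟨0, le_rfl, by simp⟩)
  -- the translates
  choose b hb using fun n : ℕ => hKc (f (v₀ + (n : ℝ) • u))
  set F : ℕ → E 2 → X := fun n z => b n • f (v₀ + (n : ℝ) • u + z) with hF
  have hFi : ∀ n, Isometry (F n) := fun n =>
    (isometry_smul X (b n)).comp (hf.comp (isometry_add_left _))
  have hF0 : ∀ n, F n 0 ∈ K := by
    intro n
    simp only [hF, add_zero]
    exact hb n
  obtain ⟨L, hL, hLt, -⟩ := t_lim X 2 K hK F hFi hF0
  have hLz : ∀ z, Tendsto (fun n => F n z) (hyperfilter ℕ : Filter ℕ) (𝓝 (L z)) :=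
    tendsto_pi_nhds.1 hLt
  set c : ℕ → G := fun n => b n * g * (b n)⁻¹ with hc
  have hcF : ∀ (n : ℕ) (z : E 2), ‖z‖ ≤ δ * n → dist (c n • F n z) (F n (z + τ)) ≤ B := by
    intro n z hz
    have h1 : c n • F n z = b n • g • f (v₀ + ((n : ℝ) • u + z)) := by
      simp only [hc, hF, mul_smul, inv_smul_smul, add_assoc]
    have h2 : F n (z + τ) = b n • f (v₀ + ((n : ℝ) • u + z) + τ) := by
      simp only [hF, add_assoc]
    rw [h1, h2, dist_smul]
    refine hg _ ⟨n, Nat.cast_nonneg n, ?_⟩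
    rwa [add_sub_cancel_left]
  -- finitely many elements
  have hfin : {x : G | ((x • ·) '' K ∩ cthickening (B + ‖τ‖) K).Nonempty}.Finite :=
    ProperlyDiscontinuousSMul.finite_disjoint_inter_image hK hK.cthickening
  have hmem : ∀ n, c n ∈ {x : G | ((x • ·) '' K ∩ cthickening (B + ‖τ‖) K).Nonempty} := by
    intro n
    refine ⟨c n • F n 0, ⟨F n 0, hF0 n, rfl⟩, ?_⟩
    refine mem_cthickening_of_dist_le _ (F n 0) _ _ (hF0 n) ?_
    have h1 := hcF n 0 (by rw [norm_zero]; positivity)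
    have h2 : dist (F n (0 + τ)) (F n 0) = ‖τ‖ := by
      rw [(hFi n).dist_eq, zero_add, dist_zero_right]
    have := dist_triangle (c n • F n 0) (F n (0 + τ)) (F n 0)
    linarith
  obtain ⟨γ, -, hγ⟩ := (Ultrafilter.eventually_exists_mem_iff (f := hyperfilter ℕ)
    (P := fun x n => c n = x) hfin).1 (Eventually.of_forall fun n => ⟨c n, hmem n, rfl⟩)
  have hlim : ∀ z : E 2, dist (γ • L z) (L (z + τ)) ≤ B := by
    intro z
    have h1 : Tendsto (fun n => dist (γ • F n z) (F n (z + τ))) (hyperfilter ℕ : Filter ℕ)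
        (𝓝 (dist (γ • L z) (L (z + τ)))) := ((hLz z).const_smul γ).dist (hLz (z + τ))
    refine le_of_tendsto h1 ?_
    have h2 : ∀ᶠ n : ℕ in (hyperfilter ℕ : Filter ℕ), ‖z‖ ≤ δ * n := by
      have h3 : ∀ᶠ n : ℕ in atTop, ‖z‖ ≤ δ * n := by
        filter_upwards [eventually_ge_atTop ⌈‖z‖ / δ⌉₊] with n hn
        have h4 : ‖z‖ / δ ≤ n := (Nat.le_ceil _).trans (by exact_mod_cast hn)
        rw [div_le_iff₀ hδ] at h4
        linarith
      exact Nat.hyperfilter_le_atTop h3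
    filter_upwards [h2, hγ] with n h4 h5
    rw [← h5]
    exact hcF n z h4
  -- the stabiliser of the limit
  obtain ⟨Γ, e, hΓ, he⟩ := hhom X G hG 2 L hL
  have hγΓ : γ ∈ Γ := (hΓ γ).2 ⟨B, fun z =>
    (infDist_le_dist_of_mem (mem_range_self (z + τ))).trans (hlim z)⟩
  set x : Γ := ⟨γ, hγΓ⟩ with hx
  have hclose : ∀ z, ‖e x z - (z + τ)‖ ≤ B := by
    intro z
    obtain ⟨d, hd⟩ := he x
    have h1 := hd.2 z ((e x).symm (z + τ))
    have h4 : e x ((e x).symm (z + τ)) = z + τ := (e x).apply_symm_apply _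
    rw [h4] at h1
    have h2 : dist ((x : G) • L z) (L (z + τ)) ≤ B := hlim z
    have h3 : dist z ((e x).symm (z + τ)) ≤ B := by
      refine le_of_sq' hB0 ?_
      have h5 : dist ((x : G) • L z) (L (z + τ)) ^ 2 ≤ B ^ 2 :=
        pow_le_pow_left₀ dist_nonneg h2 2
      nlinarith [sq_nonneg d]
    rw [← (e x).dist_map, h4] at h3
    rwa [← dist_eq_norm]
  have hdec : ∀ z, e x z = (e x).linearIsometryEquiv z + e x 0 := by
    intro z
    have h2 := (e x).map_vadd 0 z
    simpa only [vadd_eq_add, add_zero] using h2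
  have hlin : ∀ z, (e x).linearIsometryEquiv z = z := by
    refine lin_eq _ (B + ‖τ‖ + ‖e x 0‖) fun z => ?_
    have h1 : (e x).linearIsometryEquiv z - z = (e x z - (z + τ)) + τ - e x 0 := by
      rw [hdec z]
      abel
    rw [h1]
    have h2 := norm_sub_le ((e x z - (z + τ)) + τ) (e x 0)
    have h3 := norm_add_le (e x z - (z + τ)) τ
    have h4 := hclose z
    linarith
  set τ' : E 2 := e x 0 with hτ'
  have htr : ∀ z, e x z = z + τ' := fun z => by rw [hdec z, hlin z]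
  have hτ0 : τ' ≠ 0 := by
    intro h0
    have h1 := hclose 0
    rw [← hτ', h0, zero_add, zero_sub, norm_neg] at h1
    linarith
  have hpow : ∀ (n : ℕ) (z : E 2), e (x ^ n) z = z + (n : ℝ) • τ' := by
    intro n
    induction n with
    | zero => intro z; simp
    | succ n ih =>
      intro z
      rw [pow_succ, map_mul]
      show e (x ^ n) (e x z) = _
      rw [htr, ih]
      push_cast
      module
  have hzpow : ∀ (i : ℤ) (z : E 2), e (x ^ i) z = z + (i : ℝ) • τ' := by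
    intro i z
    obtain ⟨m, rfl | rfl⟩ := i.eq_nat_or_neg
    · rw [zpow_natCast, hpow]
      simp
    · rw [zpow_neg, zpow_natCast, map_inv]
      show (e (x ^ m)).symm z = _
      rw [← (e (x ^ m)).injective.eq_iff, (e (x ^ m)).apply_symm_apply, hpow]
      push_cast
      module
  refine Pool.Agent.Y165.HB.t.{u, v} X G hG 2 le_rfl L hL γ τ' M0 hτ0 fun i z => ?_
  obtain ⟨d, hd⟩ := he (x ^ i)
  have h1 := hM0 _ _ _ _ ((isometry_smul X ((x ^ i : Γ) : G)).comp hL) hL
    (e (x ^ i)).isometry hd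
  have h2 := hd.2 z z
  rw [dist_self, zero_pow two_ne_zero, add_zero, hzpow] at h2
  have h4 : dist (((x ^ i : Γ) : G) • L z) (L (z + (i : ℝ) • τ')) = d :=
    (sq_eq_sq₀ dist_nonneg hd.1).1 h2
  have h5 : ((x ^ i : Γ) : G) = γ ^ i := by
    rw [Subgroup.coe_zpow]
  rw [h5] at h4
  rw [h4]
  exact h1

end Pool.Agent.Y779.HB
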